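import Pool.Agent.V8H87.DQ.Grp

/-!
# MP_a60482_ag: the Künneth conjecture for diagonal quotients `(X × Y)/G`

Let a finite group `G` act on two smooth projective varieties `X` and `Y`, and let `W = (X × Y)/G` be
the quotient by the diagonal action.  (If the action is free on `Y`, then `W` is the total space of a
smooth isotrivial family over `Y/G` with fibre `X`, and all isotrivial families which become trivial on
a finite étale cover are of this form; in general `W` has quotient singularities and its motive is a
direct summand of the motive of any resolution.  Examples are product quotient varieties,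
Borcea–Voisin varieties, and the quotients which dominate Fermat hypersurfaces.)

We determine when `C(W)` holds.  Only the common types of `G` in `H^*(X)` and `H^*(Y)^∨` matter, and
for these `C(W)` is as strong as it can be: `C(W)` holds if and only if the Künneth components of `X`
are algebraic on the part of `H^*(X)` where `G` acts by types occurring in the dual of `H^*(Y)`, and
the same for `Y`.  In particular, if all types of `H^*(X)` occur in `H^*(Y)^∨` then `C(W)` implies
`C(X)`, and is equivalent to `C(X)` if `C(Y)` is known, for instance if `Y` is a curve.  All types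
occur if `G` acts freely on `Y` and the Euler number of `Y` is not zero; so the Künneth conjecture for
the total space of a smooth isotrivial family over a base of nonzero Euler number (trivialised by a
finite étale cover) implies it for the fibres.

The proof: the partial trace over `H^*(Y)` of the `k`-th Künneth component of `W` is algebraic; it
involves the Künneth components of `X` composed with characters of `H^j(Y)`, `i + j = k`.  The signs
in the trace are removed by the twist with `s^j`, for infinitely many values of `s`, and the
combinations of the characters are invertible on the common types.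

We work with a symmetric rigid monoidal `ℚ`-linear category (homological motives) with a realisation
in super vector spaces over a field `K` which has a grading (the `H^i`).  The degrees are integers:
the Lefschetz motive lies in degree `2`, its dual in degree `-2`, and the degrees of the motive of a
variety `X` are `0, …, 2 dim X`.
-/

set_option autoImplicit false

open CategoryTheory Limits MonoidalCategory Module Finset
open Pool.Agent.Y112.SR
open Pool.Agent.V8H87.DQ

namespace Pool.Agent.Results.MP_a60482_ag.DiagonalQuotients

universe v u w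

variable {C : Type u} [Category.{v} C] [Preadditive C] [Linear ℚ C] [MonoidalCategory C]
  [MonoidalPreadditive C] [MonoidalLinear ℚ C] [SymmetricCategory C]
  [RightRigidCategory C] {K : Type w} [Field K]

/-- **The Künneth conjecture for diagonal quotients.**

`diag ρ σ` is the projector of `M ⊗ N` to the invariants of `G`, which acts on `M` by `ρ` and on `N`
by `σ`; `Kun 𝒢 (diag ρ σ)` is the Künneth conjecture for the quotient.

* It holds if and only if the products of the Künneth components of `M` with the elements of `K[G]`
  made of types occurring in the dual of `R(N)` are algebraic, and symmetrically.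
* If all types of `R(M)` occur in the dual of `R(N)`, it implies the Künneth conjecture for `M`; if the
  latter is true for `N` then both are equivalent.
* If the types of `R(M)` and of the dual of `R(N)` are the same, it is equivalent to the Künneth
  conjecture for `M` and for `N`.
* If the supertraces of the elements `g ≠ 1` on `R(N)` are zero and the one of `1` is not zero, the
  hypothesis on the types holds for all `M`.
* More generally let `e = ∑ a_l ⊗ b_l` be any endomorphism of `M ⊗ N` such that for some `s ≠ 0` in
  `K` the operator `∑_l (∑_j s^j tr(b_l | H^j(N))) a_l` is injective on `R(M)`.  If the products of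
  the Künneth components of `M ⊗ N` with `e` are algebraic, then the Künneth conjecture holds for
  `M`. -/
theorem result (R : SuperRealisation C K) (𝒢 : Grading R) {M N : C} :
    (∀ {G : Type} [Group G] [Fintype G] (ρ : G →* End M) (σ : G →* End N),
      diag ρ σ ≫ diag ρ σ = diag ρ σ ∧
      (Kun 𝒢 (diag ρ σ) ↔ KunSeen 𝒢 ρ σ ∧ KunSeen 𝒢 σ ρ) ∧
      (TypesIn R ρ σ → Kun 𝒢 (diag ρ σ) → Kun 𝒢 (𝟙 M)) ∧
      (TypesIn R ρ σ → Kun 𝒢 (𝟙 N) → (Kun 𝒢 (diag ρ σ) ↔ Kun 𝒢 (𝟙 M))) ∧
      (TypesIn R ρ σ → TypesIn R σ ρ →
        (Kun 𝒢 (diag ρ σ) ↔ Kun 𝒢 (𝟙 M) ∧ Kun 𝒢 (𝟙 N))) ∧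
      (FreeType R σ → TypesIn R ρ σ)) ∧
    (∀ {ι : Type} [Fintype ι] (a : ι → (M ⟶ M)) (b : ι → (N ⟶ N)) (d : ℕ) (s : K), s ≠ 0 →
      (∀ i : ℤ, (d : ℤ) < |i| → 𝒢.gr N i = 0) → Function.Injective (twist 𝒢 M N a b d s).hom →
      Kun 𝒢 (∑ l, (a l ⊗ₘ b l)) → Kun 𝒢 (𝟙 M)) := by
  refine ⟨?_, fun a b d s h0 h1 h2 h3 => descent 𝒢 a b h3 h1 s h0 h2⟩
  intro G _ _ ρ σ
  have hasc : Kun 𝒢 (𝟙 M) → Kun 𝒢 (𝟙 N) → Kun 𝒢 (diag ρ σ) := fun h1 h2 => ascent 𝒢 h1 h2 _
  refine ⟨diag_idem ρ σ, ⟨fun h => ⟨fun x hx k => seen_mem 𝒢 ρ σ h hx k,
    fun x hx k => seen_mem 𝒢 σ ρ (kun_swap 𝒢 ρ σ h) hx k⟩, fun h => diag_of_seen 𝒢 ρ σ h.1 h.2⟩,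
    kun_left 𝒢 ρ σ, fun h1 h2 => ⟨kun_left 𝒢 ρ σ h1, fun h3 => hasc h3 h2⟩,
    fun h1 h2 => ⟨fun h => ⟨kun_left 𝒢 ρ σ h1 h, kun_left 𝒢 σ ρ h2 (kun_swap 𝒢 ρ σ h)⟩,
      fun h => hasc h.1 h.2⟩, fun h1 y hy => ?_⟩
  rw [free_types σ h1 hy]
  unfold act
  exact sum_eq_zero (fun g _ => zero_smul _ _)

end Pool.Agent.Results.MP_a60482_ag.DiagonalQuotients
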