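import Pool.Agent.V8H72.ExoMain

/-!
# The Kunneth conjecture fails for a Weil cohomology theory without hard Lefschetz

A Weil cohomology theory is given by graded-commutative algebras `H(X)` with Poincare duality, the
Kunneth formula and cycle classes; no Lefschetz theorem is part of the definition. The question is
whether for every such theory the Kunneth components of the diagonal are algebraic, that is, lie in
the span of the algebraic classes over the coefficient field.

Let `V` be a Weil cohomology theory on a class `𝒱` of smooth proper varieties (closed under
products), with coefficients in a field identified with `ℂ`, which has a Hodge theory: the structure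
`HodgeTheory` lists classical properties of Betti cohomology with complex coefficients of smooth
projective complex varieties (the action of the automorphisms of `ℂ` on the coefficients, the Hodge
decomposition, hard Lefschetz and the Hodge-Riemann relations). Let `X₀` be a threefold in `𝒱` with
`H^{3,0}(X₀) ≠ 0`, such that the Mumford-Tate group of `H^3(X₀)` contains the symplectic group (for
example a very general quintic threefold).

We prove: there is a Weil cohomology theory `V'` on all of `𝒱` which has the same coefficient field,
algebras, pull-backs, push-forwards, orientations and cycle classes as `V`, and differs from it only
by the grading, such that the first Kunneth component of the diagonal of `X₀` is not algebraic for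
`V'`: it does not lie in the span over the coefficient field of the classes of the algebraic cycles
on `X₀ × X₀`. The theory `V'` does not satisfy hard Lefschetz: no divisor on `X₀` has the hard
Lefschetz property for `V'`.

For Betti cohomology of all smooth projective complex varieties this is a counterexample to the
conjecture for Weil cohomology theories as defined in the problem; as the Kunneth components are
algebraic for a smooth hypersurface and Betti cohomology, their algebraicity depends on the theory.
It says nothing on the theories which satisfy hard Lefschetz, such as Betti cohomology itself.

The proof: the families of derivations of the algebras `H(X)` which are compatible with all the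
structure form a Lie algebra containing the Hodge derivation `p - q` and stable under adjoints for
the Hodge-Riemann forms. Hence the ideal of those vanishing on `H^3(X₀)` has a complement, and the
coroot of a long root of `sp(H^3(X₀))` lifts to such a family `h`. It acts with integral weights `w`,
and comparison with the Hodge derivation shows `3 |w| ≤ min(i, 2n - i)` on `H^i(Y)`, `n = dim Y`.
So one may give the part of weight `w` of `H^i(Y)` the new degree `i + 2w`.
-/

open Pool.Agent.H914 Pool.Agent.V8H72.Exo VarClass Obj WeilCohomology

universe u v

namespace Pool.Agent.Results.MP_a60482_ag.ExoticWeilCohomology

/-- **A Weil cohomology theory for which a Kunneth component is not algebraic.** -/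
theorem result {k : Type u} [Field k] {𝒱 : VarClass k} {ops : CycleOps 𝒱}
    (V : WeilCohomology.{u, v} ops) (𝓗 : HodgeTheory V) (X₀ : 𝒱.Obj)
    (hdim : X₀.dim = 3) (h30 : 𝓗.hodge X₀ 3 0 ≠ ⊥) (hMT : SymplecticMT 𝓗 X₀) :
    ∃ (gr' : ∀ Y : 𝒱.Obj, ℕ → Submodule V.K (V.H Y)) (V' : WeilCohomology.{u, v} ops),
      V'.toWeilData = { V.toWeilData with gr := gr' } ∧
      (∃ c, IsKunnethComponent V' X₀ 1 c) ∧
      (∀ c, IsKunnethComponent V' X₀ 1 c → c ∉ algSpan V' (X₀.prod X₀) X₀.dim) ∧
      ∀ D, X₀.IsCyc 1 D → ¬ HardLefschetz V' X₀ D :=
  main 𝓗 hdim h30 hMT

end Pool.Agent.Results.MP_a60482_ag.ExoticWeilCohomology
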