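import Pool.Agent.V8H87.WG.B2

/-!
# The conjecture C and the numbers of cycles on the powers of a variety

Let `X` be a smooth projective variety of dimension `n` over any field, and `H` any Weil cohomology
theory (no Lefschetz theorem is assumed). Let `ρ_j(X^N)` be the rank of the group of cycles of
codimension `j` on `X^N` modulo numerical equivalence, and

`P(t) = ∑_i b_i(X) t^i`, `F_N(t) = ∑_j ρ_j(X^N) t^(2j)`, `c(t) = (1 - t)^2 min(1, t^(2n-2))`

for a real number `t > 0`. Since `ρ_j(X^N)` is at most the Betti number `b_(2j)(X^N)`, one has
`F_N(t) ≤ P(t)^N`.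

Theorem. (1) Suppose that the sign conjecture holds for `X` (the projector onto the even cohomology is
algebraic). If `C(X)` is false then

`F_N(t) ≤ (P(t) - c(t))^N` for all `N ≥ 1` and all `t > 0`.

So, for varieties which satisfy the sign conjecture, a single strict inequality
`F_N(t) > (P(t) - c(t))^N`, for one power of `X` and one number `t`, implies that all Künneth components
of the diagonal of `X` are algebraic. Only the numbers `ρ_j(X^N)` and `b_i(X)` occur in it.

(2) The conjecture `B(X)` implies such inequalities, for each `t ≠ 1`: if `B(X)` is true then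

`P(t)^N ≤ (N n + 1) (N / 2 + 1)^(b^2) F_N(t)` for all even `N ≥ 2` and all `t > 0`,

where `b` is the sum of the Betti numbers; hence `F_N(t)^(1/N)` converges to `P(t)` along the even `N`.

So the growth condition lies between `B(X)` and `C(X)`, and there is a gap: if `X` satisfies the sign
conjecture but not `C(X)` then the exponential growth rates of all the `F_N(t)`, `t ≠ 1`, are strictly
smaller than the values `P(t)` predicted by the standard conjectures, by an explicit amount. (For
`t = 1` there can be no gap, since `F_N(1)` grows like `b^N` as soon as the sign conjecture holds; this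
remark is not used and not proved here.)

Steps of the proof of (1). Let `ε` be the operator `(-1)^j` on `H^j(X)`, `h` the operator `j - n`. By
the sign conjecture `ε` is algebraic, so numerically trivial correspondences of degree zero are
nilpotent, and there is a correspondence `T` (with coefficients in the coefficient field) such that
`Tr(T y) = Tr(h y)` for all algebraic `y` of degree zero. Then `Tr(ε (T - h) y) = 0` for all algebraic
`y`, and this property passes to the derivations `D(T) - D(h)` of `H(X^N) = H(X)^(⊗ N)`, where
`D(a) = ∑ 1 ⊗ ... ⊗ a ⊗ ... ⊗ 1`. Hence `D(T)` acts on the cycles of codimension `j` on `X^N`, modulo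
numerical equivalence, as multiplication by `2j - N n`, and `ρ_j(X^N)` is at most the number of words
of length `N` in the eigenvalues `λ_s` of `T` with sum `2j - N n`: so `F_N(t) ≤ (t^n ∑_s t^(λ_s))^N`. The
eigenvalues are rational numbers, namely averages of numbers `j - n` with `j` of fixed parity, and by
convexity `∑_s t^(λ_s) ≤ ∑_i b_i t^(i-n)`; the difference is at least `c(t) t^(-n)` unless `T - h` is
nilpotent, and then the Künneth projectors are polynomials in `T`.

Steps of the proof of (2). Let `Z` be the power `X^m`. By `B(X)` and `d ≥ 0` the operator `L^d` from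
`H^(m n - d)(Z)` to `H^(m n + d)(Z)` has an algebraic inverse; multiplying with the permutations of the
factors one obtains cycles of codimension `m n ± d` on `Z × Z` whose intersection matrix has the rank of
the algebra spanned by the permutations on `H^(m n - d)(Z)`. The square of the dimension of this space
is at most the product of the rank with the dimension of the commutant, which is at most
`(m + 1)^(b^2)`.
-/

set_option autoImplicit false

open CategoryTheory AlgebraicGeometry Module Finset
open Pool.Agent.H914 Pool.Agent.H914.VarClass Pool.Agent.H914.VarClass.Obj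
open Pool.Agent.Y133.Half (pw)
open Pool.Agent.W534 (numRank)

universe u v

namespace Pool.Agent.Results.MP_a60482_ag.GrowthOfPowers

/-- The standard conjecture `C` and the growth of the numbers of cycles on the powers. -/
theorem result {k : Type u} [Field k] {𝒱 : VarClass k} {ops : CycleOps 𝒱}
    (W : WeilCohomology.{u, v} ops) (X : 𝒱.Obj) :
    (Pool.Agent.V8H87.WG.SignConj W X → ¬ Pool.Agent.V8H87.WG.KunnethConj W X →
      ∀ (m : ℕ) (t : ℝ), 0 < t →
        ∑ j ∈ range ((pw X m).dim + 1), (numRank ops (pw X m) j : ℝ) * t ^ (2 * j) ≤
          (∑ i ∈ range (2 * X.dim + 1), (W.betti X i : ℝ) * t ^ i -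
            (1 - t) ^ 2 * min 1 (t ^ (2 * X.dim - 2))) ^ (m + 1)) ∧
    (∀ D : X.Cycles, X.IsCyc 1 D → HardLefschetz W X D → LefschetzB W X D →
      ∀ (m : ℕ) (t : ℝ), 0 < t →
        (∑ i ∈ range (2 * X.dim + 1), (W.betti X i : ℝ) * t ^ i) ^ (2 * m + 2) ≤
          ((2 * (m + 1) * X.dim + 1) * (m + 2) ^ (finrank W.K (W.H X) ^ 2)) *
            ∑ j ∈ range ((pw X (2 * m + 1)).dim + 1),
              (numRank ops (pw X (2 * m + 1)) j : ℝ) * t ^ (2 * j)) :=
  ⟨fun h hK m _ ht => Pool.Agent.V8H87.WG.main h hK m ht,
    fun _ hD hHL hB m _ ht => Pool.Agent.V8H87.WG.lower hD hHL hB m ht⟩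

end Pool.Agent.Results.MP_a60482_ag.GrowthOfPowers
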