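import Pool.Agent.V8H31.KS.Tensor

/-!
# MP_a60482_ag: the Künneth conjecture for Schur functors

`C` is a `ℚ`-linear rigid symmetric monoidal category with a symmetric monoidal functor `R` to
finite dimensional super vector spaces over a field `K` (`SuperRealisation`) and a grading of `R` by
the integers (`ZGr`).  For the problem: `C` is the category of motives over `k` modulo homological
equivalence (with Tate twists), `R` is the given Weil cohomology, and the part of degree `i` of
`R(h(X)(r))` is `H^(i + 2 r)(X)`.

`Kun 𝒢 M` is the conjecture `C(M)`: the projectors of `R(M)` to its parts of given degree are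
`K`-linear combinations of realisations of endomorphisms of `M`; for `M = h(X)` this is `C(X)`.

`IsSchurSummand M P n`: `P` is the direct summand of `M ⊗ ⋯ ⊗ M` (`n` factors) cut out by an
idempotent of the algebra generated by the exchanges of neighbouring factors, that is, of the image of
the group algebra `ℚ[S_n]`: for example a Schur functor `S_λ(M)`, an exterior or symmetric power, or
the invariants of a permutation group `G ⊆ S_n` (for `M = h(X)`: the motive of `X^n / G`).

If `C(M)` holds then `C` holds for all summands of the powers of `M`.  We show the converse: if
`C(P)` holds for one `P` as above then `C(M)` holds, unless `R(P)` has only one degree (or is zero), in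
which case `C(P)` says nothing.  The same is true for tensor products of such objects.

The proof.  Suppose that the projector to degree `i` is not algebraic on `M`.  Then there is a degree
`j ≠ i`, which occurs in `R(M)`, such that all algebraic linear combinations of the projectors are equal
on `R(M)_i` and `R(M)_j`.  Let `E` be the projector of `P` on `V^(⊗ n)`, `V = R(M)`, and let `b` be a
linear combination of the projectors to the degrees of `V^(⊗ n)`.  Then `b E` is algebraic, and it is a
combination of products of exchanges and of degree projectors of the factors.  Contracting all factors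
but one gives an algebraic combination of the degree projectors of `V`; so
`tr(D(θ) b E) = 0` where `D(θ)` is the derivation of `V^(⊗ n)` attached to `θ = p ∓ q`, for `p`, `q`
projectors of rank one to lines of degree `i`, `j`, with the sign `-` if `i` and `j` have the same
parity.
* If `i` and `j` have different parities, take `b = 1`: `tr(D(p) E) + tr(D(q) E) = 0`.  These are
  nonnegative integers, so `D(p) E = D(q) E = 0`.
* If `i` and `j` have the same parity, take for `b` the degree operator of `V^(⊗ n)`, which is a
  derivation, too.  The invariance of the form `tr(x y E)` on the derivations under the Lie algebra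
  `gl(V)` gives `tr(D(p - q)^2 E) = 0`, and the eigenvalues of `D(p - q)` are integers, so
  `D(p - q) E = 0`.
The endomorphisms `φ` with `D(φ) E = 0` form an ideal of the Lie superalgebra `gl(V)`.  If both parities
occur in `V` it follows that this ideal contains the identity, so `n E = 0`, which is absurd.  If `V` is
pure the ideal contains all endomorphisms of trace zero, and the degree operator is a scalar on `R(P)`;
so `R(P)` has only one degree.
-/

set_option autoImplicit false

open CategoryTheory Limits MonoidalCategory
open Pool.Agent.Y112.SR Pool.Agent.Y112.SC Pool.Agent.V8H31.KS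

namespace Pool.Agent.Results.MP_a60482_ag.SchurFunctors

universe v u w

/-- **The Künneth conjecture for tensor products of Schur functors.**  Let `P` and `Q` be direct
summands of `M^(⊗ m)` and `N^(⊗ n)` cut out by idempotents of the group algebras of the symmetric
groups, whose tensor product has a nonzero realisation.  The Künneth conjecture holds for `P ⊗ Q` if and
only if it holds for `M` or `R(P)` has only one degree, and it holds for `N` or `R(Q)` has only one
degree.  (For `N = Q = 𝟙` the second condition is empty, and `P ⊗ Q = P`.) -/
theorem result {C : Type u} [Category.{v} C] [Preadditive C] [Linear ℚ C] [MonoidalCategory C]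
    [MonoidalPreadditive C] [MonoidalLinear ℚ C] [SymmetricCategory C] [RightRigidCategory C]
    {K : Type w} [Field K] (R : SuperRealisation C K) (𝒢 : ZGr R) (M N P Q : C) (m n : ℕ)
    (hP : IsSchurSummand M P m) (hQ : IsSchurSummand N Q n) (h : ¬ IsZero (R.H.obj (P ⊗ Q))) :
    Kun 𝒢 (P ⊗ Q) ↔ (TwoDegrees 𝒢 P → Kun 𝒢 M) ∧ (TwoDegrees 𝒢 Q → Kun 𝒢 N) := by
  have h1 : ¬ IsZero (R.H.obj P ⊗ R.H.obj Q) := fun h0 =>
    h (h0.of_iso (Functor.Monoidal.μIso R.H P Q).symm)
  have hP0 : ¬ IsZero (R.H.obj P) := fun h0 => h1 (by
    rw [IsZero.iff_id_eq_zero] at h0 ⊢
    rw [← id_whiskerRight, h0, MonoidalPreadditive.zero_whiskerRight])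
  have hQ0 : ¬ IsZero (R.H.obj Q) := fun h0 => h1 (by
    rw [IsZero.iff_id_eq_zero] at h0 ⊢
    rw [← whiskerLeft_id, h0, MonoidalPreadditive.whiskerLeft_zero])
  have key : ∀ {M P : C} {n : ℕ}, IsSchurSummand M P n →
      (Kun 𝒢 P ↔ (TwoDegrees 𝒢 P → Kun 𝒢 M)) := by
    intro M P n hP
    by_cases h2 : TwoDegrees 𝒢 P
    · exact (schur_kun hP h2).trans ⟨fun h _ => h, fun h => h h2⟩
    · exact ⟨fun _ h => absurd h h2, fun _ => kun_of_one_degree h2⟩
  rw [kun_tensor_iff hP0 hQ0, key hP, key hQ]

end Pool.Agent.Results.MP_a60482_ag.SchurFunctors
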